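import Pool.Agent.H42.BH.Rank
import Pool.Agent.H53.DF.Base

set_option autoImplicit false

/-!
# Assembling the frozen statement from the lattice theorem for rank functions
-/

namespace Pool.Agent.H8.DF

open scoped Matrix
open Topology Matrix Filter
open Pool.Agent.H42.BH (RkFun Cz)

variable {A : Type} [CStarAlgebra A]

/-- being a star-square -/
def Sq {n : Type} [Fintype n] (a : Matrix n n A) : Prop := ∃ x : Matrix n n A, a = xᴴ * x

theorem Sq.reindex {n m : Type} [Fintype n] [Fintype m] {a : Matrix n n A} (h : Sq a)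
    (e : m ≃ n) : Sq (a.submatrix e e) := by
  obtain ⟨x, rfl⟩ := h
  refine ⟨x.submatrix e e, ?_⟩
  rw [Matrix.conjTranspose_submatrix, Matrix.submatrix_mul_equiv]

theorem Sq.block {n m : Type} [Fintype n] [Fintype m] {a : Matrix n n A} {b : Matrix m m A}
    (ha : Sq a) (hb : Sq b) : Sq (fromBlocks a 0 0 b) := by
  obtain ⟨x, rfl⟩ := ha
  obtain ⟨y, rfl⟩ := hb
  refine ⟨fromBlocks x 0 0 y, ?_⟩
  rw [fromBlocks_conjTranspose, fromBlocks_multiply]
  simp

theorem sq_conjTranspose_mul {m n : Type} [Fintype m] [Fintype n] (T : Matrix m n A) :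
    Sq (Tᴴ * T) := by
  letI := CStarAlgebra.spectralOrder A
  letI := CStarAlgebra.spectralOrderedRing A
  obtain ⟨K, hK, hK2⟩ := Pool.Agent.H42.BH.exists_sqrt (Pool.Agent.H42.BH.nonneg_rect T)
  exact ⟨K, by rw [hK, hK2]⟩

/-- a function on square matrices is determined, for the purpose of being a dimension function,
by its values on star-squares. -/
theorem fd_congr {d d' : (n : ℕ) → Matrix (Fin n) (Fin n) A → ℝ}
    (h : Pool.Agent.H53.DF.IsDim d) (hdd : ∀ n a, Sq a → d n a = d' n a) :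
    Pool.Agent.H53.DF.IsDim d' where
  nonneg n a ha := by rw [← hdd n a ha]; exact h.nonneg n a ha
  add n m a b ha hb := by
    rw [← hdd n a ha, ← hdd m b hb, ← h.add n m a b ha hb]
    symm
    apply hdd
    exact (Sq.block ha hb).reindex finSumFinEquiv.symm
  mono n m a b ha hb hab := by
    rw [← hdd n a ha, ← hdd m b hb]
    exact h.mono n m a b ha hb hab

/-- restriction of a rank function to square matrices. -/
theorem fd_of_rk {r : RkFun A} (h : Pool.Agent.H42.BH.IsDim r) :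
    Pool.Agent.H53.DF.IsDim (fun n (a : Matrix (Fin n) (Fin n) A) => r (Fin n) (Fin n) a) where
  nonneg n a _ := h.nonneg a
  add n m a b _ _ := by
    rw [← h.add a b]
    exact h.reindex_eq (fromBlocks a 0 0 b) finSumFinEquiv.symm finSumFinEquiv.symm
  mono n m a b _ _ hab := by
    obtain ⟨x, hx⟩ := hab
    apply h.cz
    exact isClosed_closure.mem_of_tendsto hx
      (Eventually.of_forall fun i => subset_closure ⟨x i, (x i)ᴴ, rfl⟩)

theorem rk_ext {r r' : RkFun A} (h : Pool.Agent.H42.BH.IsDim r) (h' : Pool.Agent.H42.BH.IsDim r')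
    (hrr : ∀ n (a : Matrix (Fin n) (Fin n) A), Sq a →
      r (Fin n) (Fin n) a = r' (Fin n) (Fin n) a) : r = r' := by
  funext m n _ _ T
  rw [← h.star_mul T, ← h'.star_mul T,
    ← h.reindex_eq (Tᴴ * T) (Fintype.equivFin n).symm (Fintype.equivFin n).symm,
    ← h'.reindex_eq (Tᴴ * T) (Fintype.equivFin n).symm (Fintype.equivFin n).symm]
  apply hrr
  apply Sq.reindex
  exact sq_conjTranspose_mul T

theorem add_isDim {r r' : RkFun A} (h : Pool.Agent.H42.BH.IsDim r)
    (h' : Pool.Agent.H42.BH.IsDim r') : Pool.Agent.H42.BH.IsDim (r + r') where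
  nonneg T := add_nonneg (h.nonneg T) (h'.nonneg T)
  mono X T Y := add_le_add (h.mono X T Y) (h'.mono X T Y)
  add T U := by
    change r _ _ _ + r' _ _ _ = (r _ _ T + r' _ _ T) + (r _ _ U + r' _ _ U)
    rw [h.add, h'.add]
    ring
  cz hTU := add_le_add (h.cz hTU) (h'.cz hTU)

/-- restriction to square matrices -/
def res (r : RkFun A) : (n : ℕ) → Matrix (Fin n) (Fin n) A → ℝ :=
  fun n a => r (Fin n) (Fin n) a

/-- **Assembly**: the lattice theorem for rank functions gives the frozen statement. -/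
theorem assemble
    (lattice : ∀ f g : RkFun A, Pool.Agent.H42.BH.IsDim f → Pool.Agent.H42.BH.IsDim g →
      (∃ s : RkFun A, Pool.Agent.H42.BH.IsDim s ∧ Pool.Agent.H42.BH.IsDim (s - f) ∧
        Pool.Agent.H42.BH.IsDim (s - g) ∧ ∀ k : RkFun A, Pool.Agent.H42.BH.IsDim k →
          Pool.Agent.H42.BH.IsDim (k - f) → Pool.Agent.H42.BH.IsDim (k - g) →
          Pool.Agent.H42.BH.IsDim (k - s)) ∧
      (∃ i : RkFun A, Pool.Agent.H42.BH.IsDim i ∧ Pool.Agent.H42.BH.IsDim (f - i) ∧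
        Pool.Agent.H42.BH.IsDim (g - i) ∧ ∀ k : RkFun A, Pool.Agent.H42.BH.IsDim k →
          Pool.Agent.H42.BH.IsDim (f - k) → Pool.Agent.H42.BH.IsDim (g - k) →
          Pool.Agent.H42.BH.IsDim (i - k)))
    (exists_rk : ∀ d : (n : ℕ) → Matrix (Fin n) (Fin n) A → ℝ, Pool.Agent.H53.DF.IsDim d →
      ∃ r : RkFun A, Pool.Agent.H42.BH.IsDim r ∧
        ∀ n (a : Matrix (Fin n) (Fin n) A), Sq a → r (Fin n) (Fin n) a = d n a)
    (f g : (n : ℕ) → Matrix (Fin n) (Fin n) A → ℝ) (hf : Pool.Agent.H53.DF.IsDim f)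
    (hg : Pool.Agent.H53.DF.IsDim g) :
    (∃ s : (n : ℕ) → Matrix (Fin n) (Fin n) A → ℝ,
        Pool.Agent.H53.DF.IsDim s ∧ Pool.Agent.H53.DF.IsDim (s - f) ∧
        Pool.Agent.H53.DF.IsDim (s - g) ∧
        ∀ k : (n : ℕ) → Matrix (Fin n) (Fin n) A → ℝ,
          Pool.Agent.H53.DF.IsDim k → Pool.Agent.H53.DF.IsDim (k - f) →
          Pool.Agent.H53.DF.IsDim (k - g) → Pool.Agent.H53.DF.IsDim (k - s)) ∧
    (∃ i : (n : ℕ) → Matrix (Fin n) (Fin n) A → ℝ,
        Pool.Agent.H53.DF.IsDim i ∧ Pool.Agent.H53.DF.IsDim (f - i) ∧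
        Pool.Agent.H53.DF.IsDim (g - i) ∧
        ∀ k : (n : ℕ) → Matrix (Fin n) (Fin n) A → ℝ,
          Pool.Agent.H53.DF.IsDim k → Pool.Agent.H53.DF.IsDim (f - k) →
          Pool.Agent.H53.DF.IsDim (g - k) → Pool.Agent.H53.DF.IsDim (i - k)) := by
  obtain ⟨rf, hrf, hrf'⟩ := exists_rk f hf
  obtain ⟨rg, hrg, hrg'⟩ := exists_rk g hg
  obtain ⟨⟨s, hs, hsf, hsg, hsk⟩, ⟨i, hi, hif, hig, hik⟩⟩ := lattice rf rg hrf hrg
  -- the rank function of a sum
  have key : ∀ {d e : (n : ℕ) → Matrix (Fin n) (Fin n) A → ℝ} {rd re rs : RkFun A},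
      Pool.Agent.H42.BH.IsDim rd → Pool.Agent.H42.BH.IsDim re → Pool.Agent.H42.BH.IsDim rs →
      (∀ n (a : Matrix (Fin n) (Fin n) A), Sq a → rd (Fin n) (Fin n) a = d n a) →
      (∀ n (a : Matrix (Fin n) (Fin n) A), Sq a → re (Fin n) (Fin n) a = e n a) →
      (∀ n (a : Matrix (Fin n) (Fin n) A), Sq a → rs (Fin n) (Fin n) a = (d - e) n a) →
      rs = rd - re := by
    intro d e rd re rs h1 h2 h3 e1 e2 e3
    have h4 : rs + re = rd := by
      apply rk_ext (add_isDim h3 h2) h1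
      intro n a ha
      change rs _ _ a + re _ _ a = rd _ _ a
      rw [e1 n a ha, e2 n a ha, e3 n a ha]
      simp
    rw [← h4]
    simp
  constructor
  · refine ⟨res s, fd_of_rk hs, fd_congr (fd_of_rk hsf) ?_, fd_congr (fd_of_rk hsg) ?_, ?_⟩
    · intro n a ha
      change s _ _ a - rf _ _ a = s _ _ a - f n a
      rw [hrf' n a ha]
    · intro n a ha
      change s _ _ a - rg _ _ a = s _ _ a - g n a
      rw [hrg' n a ha]
    · intro k hk hkf hkg
      obtain ⟨rk, hrk, hrk'⟩ := exists_rk k hk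
      obtain ⟨r1, hr1, hr1'⟩ := exists_rk _ hkf
      obtain ⟨r2, hr2, hr2'⟩ := exists_rk _ hkg
      have e1 := key hrk hrf hr1 hrk' hrf' hr1'
      have e2 := key hrk hrg hr2 hrk' hrg' hr2'
      have h3 := hsk rk hrk (e1 ▸ hr1) (e2 ▸ hr2)
      refine fd_congr (fd_of_rk h3) ?_
      intro n a ha
      change rk _ _ a - s _ _ a = k n a - s _ _ a
      rw [hrk' n a ha]
  · refine ⟨res i, fd_of_rk hi, fd_congr (fd_of_rk hif) ?_, fd_congr (fd_of_rk hig) ?_, ?_⟩
    · intro n a ha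
      change rf _ _ a - i _ _ a = f n a - i _ _ a
      rw [hrf' n a ha]
    · intro n a ha
      change rg _ _ a - i _ _ a = g n a - i _ _ a
      rw [hrg' n a ha]
    · intro k hk hfk hgk
      obtain ⟨rk, hrk, hrk'⟩ := exists_rk k hk
      obtain ⟨r1, hr1, hr1'⟩ := exists_rk _ hfk
      obtain ⟨r2, hr2, hr2'⟩ := exists_rk _ hgk
      have e1 := key hrf hrk hr1 hrf' hrk' hr1'
      have e2 := key hrg hrk hr2 hrg' hrk' hr2'
      have h3 := hik rk hrk (e1 ▸ hr1) (e2 ▸ hr2)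
      refine fd_congr (fd_of_rk h3) ?_
      intro n a ha
      change i _ _ a - rk _ _ a = i _ _ a - k n a
      rw [hrk' n a ha]

end Pool.Agent.H8.DF
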