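import Pool.Statements.S05343
import Pool.Agent.H8.DF.Assemble

set_option autoImplicit false

/-!
# The frozen statement from the two main theorems
-/

namespace Pool.Agent.H8.DF

open scoped Matrix
open Pool.Agent.H42.BH (RkFun)

/-- The frozen statement, from the lattice theorem and the extension theorem. -/
theorem frozen_of
    (lattice : ∀ (A : Type) [CStarAlgebra A] (f g : RkFun A), Pool.Agent.H42.BH.IsDim f →
      Pool.Agent.H42.BH.IsDim g →
      (∃ s : RkFun A, Pool.Agent.H42.BH.IsDim s ∧ Pool.Agent.H42.BH.IsDim (s - f) ∧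
        Pool.Agent.H42.BH.IsDim (s - g) ∧ ∀ k : RkFun A, Pool.Agent.H42.BH.IsDim k →
          Pool.Agent.H42.BH.IsDim (k - f) → Pool.Agent.H42.BH.IsDim (k - g) →
          Pool.Agent.H42.BH.IsDim (k - s)) ∧
      (∃ i : RkFun A, Pool.Agent.H42.BH.IsDim i ∧ Pool.Agent.H42.BH.IsDim (f - i) ∧
        Pool.Agent.H42.BH.IsDim (g - i) ∧ ∀ k : RkFun A, Pool.Agent.H42.BH.IsDim k →
          Pool.Agent.H42.BH.IsDim (f - k) → Pool.Agent.H42.BH.IsDim (g - k) →
          Pool.Agent.H42.BH.IsDim (i - k)))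
    (exists_rk : ∀ (A : Type) [CStarAlgebra A] (d : (n : ℕ) → Matrix (Fin n) (Fin n) A → ℝ),
      Pool.Agent.H53.DF.IsDim d → ∃ r : RkFun A, Pool.Agent.H42.BH.IsDim r ∧
        ∀ n (a : Matrix (Fin n) (Fin n) A), Sq a → r (Fin n) (Fin n) a = d n a) :
    ∀ (A : Type) [CStarAlgebra A],
    ∀ (P : (n : ℕ) → Matrix (Fin n) (Fin n) A → Prop)
      (R : (n m : ℕ) → Matrix (Fin n) (Fin n) A → Matrix (Fin m) (Fin m) A → Prop)
      (D : ((n : ℕ) → Matrix (Fin n) (Fin n) A → ℝ) → Prop),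
      (∀ (n : ℕ) (a : Matrix (Fin n) (Fin n) A),
          P n a ↔ ∃ x : Matrix (Fin n) (Fin n) A, a = xᴴ * x) →
      (∀ (n m : ℕ) (a : Matrix (Fin n) (Fin n) A) (b : Matrix (Fin m) (Fin m) A),
          R n m a b ↔ ∃ x : ℕ → Matrix (Fin n) (Fin m) A,
            Filter.Tendsto (fun k => x k * b * (x k)ᴴ) Filter.atTop (nhds a)) →
      (∀ d : (n : ℕ) → Matrix (Fin n) (Fin n) A → ℝ,
          D d ↔
            ((∀ (n : ℕ) (a : Matrix (Fin n) (Fin n) A), P n a → 0 ≤ d n a) ∧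
             (∀ (n m : ℕ) (a : Matrix (Fin n) (Fin n) A) (b : Matrix (Fin m) (Fin m) A),
                P n a → P m b →
                  d (n + m) (Matrix.reindex finSumFinEquiv finSumFinEquiv
                    (Matrix.fromBlocks a 0 0 b)) = d n a + d m b) ∧
             (∀ (n m : ℕ) (a : Matrix (Fin n) (Fin n) A) (b : Matrix (Fin m) (Fin m) A),
                P n a → P m b → R n m a b → d n a ≤ d m b))) →
      ∀ f g : (n : ℕ) → Matrix (Fin n) (Fin n) A → ℝ, D f → D g →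
        (∃ s : (n : ℕ) → Matrix (Fin n) (Fin n) A → ℝ,
            D s ∧ D (s - f) ∧ D (s - g) ∧
            ∀ k : (n : ℕ) → Matrix (Fin n) (Fin n) A → ℝ,
              D k → D (k - f) → D (k - g) → D (k - s)) ∧
        (∃ i : (n : ℕ) → Matrix (Fin n) (Fin n) A → ℝ,
            D i ∧ D (f - i) ∧ D (g - i) ∧
            ∀ k : (n : ℕ) → Matrix (Fin n) (Fin n) A → ℝ,
              D k → D (f - k) → D (g - k) → D (i - k)) := by
  intro A _ P R D hP hR hD
  have hFD : ∀ d : (n : ℕ) → Matrix (Fin n) (Fin n) A → ℝ,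
      D d ↔ Pool.Agent.H53.DF.IsDim d := by
    intro d
    rw [hD]
    constructor
    · rintro ⟨h1, h2, h3⟩
      exact ⟨fun n a ha => h1 n a ((hP n a).2 ha),
        fun n m a b ha hb => h2 n m a b ((hP _ _).2 ha) ((hP _ _).2 hb),
        fun n m a b ha hb hab => h3 n m a b ((hP _ _).2 ha) ((hP _ _).2 hb)
          ((hR _ _ _ _).2 hab)⟩
    · intro h
      exact ⟨fun n a ha => h.nonneg n a ((hP n a).1 ha),
        fun n m a b ha hb => h.add n m a b ((hP _ _).1 ha) ((hP _ _).1 hb),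
        fun n m a b ha hb hab => h.mono n m a b ((hP _ _).1 ha) ((hP _ _).1 hb)
          ((hR _ _ _ _).1 hab)⟩
  intro f g hf hg
  simp only [hFD] at hf hg ⊢
  exact assemble (lattice A) (exists_rk A) f g hf hg

end Pool.Agent.H8.DF
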